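import Pool.Agent.Run7.h545.HP.Stm
import Pool.Agent.Run7.h136.BP.SQ

/-!
# Project HP, piece SQ: the second moment of the truncated singular series of `a m² + b m + c`, uniformly in `b`

After `Run7/h136/BP/SQ.lean` (helper136), which treats `a = 1`, `b = 0`.
-/

set_option autoImplicit false

namespace Run7.h973.HP

open Finset Filter Topology
open Pool.Agent.N792

theorem fv_add (a b : ℤ) (p c : ℕ) (r : ℕ) : fv a b ((c + p : ℕ) : ℤ) r = fv a b (c : ℤ) r + p := by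
  simp only [fv]
  push_cast
  ring

theorem rho_per (a b : ℤ) (p : ℕ) : Function.Periodic (fun c : ℕ => rho a b (c : ℤ) p) p := by
  intro c
  simp only [rho]
  congr 1
  refine filter_congr fun r _ => ?_
  rw [fv_add]
  exact dvd_add_self_right

theorem rho_sum_ge (a b : ℤ) (p : ℕ) (hp : p.Prime) : (p : ℝ) ≤ ∑ c ∈ range p, (rho a b (c : ℤ) p : ℝ) := by
  classical
  have h1 : ∑ c ∈ range p, rho a b (c : ℤ) p =
      ∑ r ∈ range p, #((range p).filter (fun c : ℕ => (p : ℤ) ∣ fv a b c r)) := by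
    simp only [rho, card_filter]
    rw [sum_comm]
  have h2 : ∀ r ∈ range p, 1 ≤ #((range p).filter (fun c : ℕ => (p : ℤ) ∣ fv a b c r)) := by
    intro r _
    rw [Nat.one_le_iff_ne_zero, ← Nat.pos_iff_ne_zero, card_pos]
    refine ⟨((-(a * (r : ℤ) ^ 2 + b * r)) % p).toNat, ?_⟩
    have hp0 : (0 : ℤ) < p := by exact_mod_cast hp.pos
    have h3 := Int.emod_nonneg (-(a * (r : ℤ) ^ 2 + b * r)) hp0.ne'
    have h4 := Int.emod_lt_of_pos (-(a * (r : ℤ) ^ 2 + b * r)) hp0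
    rw [mem_filter, mem_range]
    refine ⟨by omega, ?_⟩
    rw [Int.toNat_of_nonneg h3]
    have h5 := Int.emod_add_mul_ediv (-(a * (r : ℤ) ^ 2 + b * r)) p
    refine ⟨-(-(a * (r : ℤ) ^ 2 + b * r) / p), ?_⟩
    simp only [fv]
    linear_combination h5
  have h3 : p ≤ ∑ c ∈ range p, rho a b (c : ℤ) p := by
    rw [h1]
    calc p = ∑ _r ∈ range p, 1 := by simp
      _ ≤ _ := sum_le_sum h2
  exact_mod_cast h3

theorem local_bound (a b : ℤ) (p : ℕ) (hp : p.Prime) (hpa : ¬ (p : ℤ) ∣ a) :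
    ∑ c ∈ range p, ((1 - (rho a b (c : ℤ) p : ℝ) / p) / (1 - 1 / (p : ℝ))) ^ 2 ≤
      p * (1 + 4 / (p : ℝ) ^ 2) := by
  have hp2 : (2 : ℝ) ≤ p := by exact_mod_cast hp.two_le
  have hp0 : (0 : ℝ) < p := by linarith
  have hS := rho_sum_ge a b p hp
  have h1 : ∀ c ∈ range p, (1 - (rho a b (c : ℤ) p : ℝ) / p) ^ 2 ≤
      1 - (rho a b (c : ℤ) p : ℝ) * (2 / p - 2 / p ^ 2) := by
    intro c _
    have h2 : (rho a b (c : ℤ) p : ℝ) ≤ 2 := by
      have : rho a b (c : ℤ) p ≤ 2 := rho_le_two a b c p hp hpa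
      exact_mod_cast this
    have h3 : (0 : ℝ) ≤ rho a b (c : ℤ) p := Nat.cast_nonneg _
    have h4 : (rho a b (c : ℤ) p : ℝ) ^ 2 ≤ 2 * rho a b (c : ℤ) p := by nlinarith
    have h5 : (rho a b (c : ℤ) p : ℝ) ^ 2 / p ^ 2 ≤ 2 * rho a b (c : ℤ) p / p ^ 2 := by gcongr
    calc (1 - (rho a b (c : ℤ) p : ℝ) / p) ^ 2 =
          1 - 2 * (rho a b (c : ℤ) p : ℝ) / p + (rho a b (c : ℤ) p : ℝ) ^ 2 / p ^ 2 := by ring
      _ ≤ 1 - 2 * (rho a b (c : ℤ) p : ℝ) / p + 2 * rho a b (c : ℤ) p / p ^ 2 := by linarith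
      _ = _ := by ring
  have h2 : ∑ c ∈ range p, (1 - (rho a b (c : ℤ) p : ℝ) / p) ^ 2 ≤ (p : ℝ) - 2 + 2 / p := by
    refine (sum_le_sum h1).trans ?_
    rw [sum_sub_distrib, ← sum_mul, sum_const, card_range, nsmul_eq_mul, mul_one]
    have h3 : 0 ≤ 2 / (p : ℝ) - 2 / p ^ 2 := by
      rw [sub_nonneg, div_le_div_iff₀ (by positivity) hp0]
      nlinarith
    have h4 : (p : ℝ) * (2 / (p : ℝ) - 2 / p ^ 2) = 2 - 2 / p := by
      field_simp
    have h5 := mul_le_mul_of_nonneg_right hS h3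
    rw [h4] at h5
    linarith
  have h3 : ∑ c ∈ range p, ((1 - (rho a b (c : ℤ) p : ℝ) / p) / (1 - 1 / (p : ℝ))) ^ 2 =
      (∑ c ∈ range p, (1 - (rho a b (c : ℤ) p : ℝ) / p) ^ 2) / (1 - 1 / (p : ℝ)) ^ 2 := by
    rw [sum_div]
    refine sum_congr rfl fun c _ => ?_
    rw [div_pow]
  rw [h3]
  have h4 : 0 < 1 - 1 / (p : ℝ) := by
    have : 1 / (p : ℝ) ≤ 1 / 2 := one_div_le_one_div_of_le (by norm_num) hp2
    linarith
  rw [div_le_iff₀ (by positivity)]
  refine h2.trans ?_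
  have h5 : (p : ℝ) * (1 + 4 / (p : ℝ) ^ 2) * (1 - 1 / (p : ℝ)) ^ 2 =
      (p ^ 2 + 4) * (p - 1) ^ 2 / p ^ 3 := by
    field_simp
  have h6 : (p : ℝ) - 2 + 2 / p = (p ^ 2 - 2 * p + 2) * p ^ 2 / p ^ 3 := by
    field_simp
  rw [h5, h6]
  refine div_le_div_of_nonneg_right ?_ (by positivity)
  have h7 : 0 ≤ (3 * (p : ℝ) - 2) * (p - 2) := mul_nonneg (by linarith) (by linarith)
  linarith

/-- the trivial local bound, used for the primes dividing `a` -/
theorem local_triv (a b : ℤ) (p : ℕ) (hp : p.Prime) :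
    ∑ c ∈ range p, ((1 - (rho a b (c : ℤ) p : ℝ) / p) / (1 - 1 / (p : ℝ))) ^ 2 ≤ (p : ℝ) * 4 := by
  have hp2 : (2 : ℝ) ≤ p := by exact_mod_cast hp.two_le
  have hp0 : (0 : ℝ) < p := by linarith
  have h4 : 1 / 2 ≤ 1 - 1 / (p : ℝ) := by
    have : 1 / (p : ℝ) ≤ 1 / 2 := one_div_le_one_div_of_le (by norm_num) hp2
    linarith
  calc ∑ c ∈ range p, ((1 - (rho a b (c : ℤ) p : ℝ) / p) / (1 - 1 / (p : ℝ))) ^ 2
      ≤ ∑ c ∈ range p, (4 : ℝ) := by
        refine sum_le_sum fun c _ => ?_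
        have h1 : (rho a b c p : ℝ) ≤ p := by
          have : rho a b c p ≤ p := by
            unfold rho
            exact (card_filter_le _ _).trans (by rw [card_range])
          exact_mod_cast this
        have h2 : 0 ≤ 1 - (rho a b c p : ℝ) / p := by
          rw [sub_nonneg, div_le_one hp0]
          exact h1
        have h3 : 1 - (rho a b c p : ℝ) / p ≤ 1 := by
          have : 0 ≤ (rho a b c p : ℝ) / p := by positivity
          linarith
        have h5 : 0 ≤ (1 - (rho a b (c : ℤ) p : ℝ) / p) / (1 - 1 / (p : ℝ)) := by positivity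
        have h6 : (1 - (rho a b (c : ℤ) p : ℝ) / p) / (1 - 1 / (p : ℝ)) ≤ 2 := by
          rw [div_le_iff₀ (by linarith)]
          linarith
        nlinarith
    _ = p * 4 := by simp

/-- the sum over a period -/
theorem period_bound (a b : ℤ) (ha : 0 < a) (w : ℕ) :
    ∑ c ∈ range (∏ p ∈ (Icc 1 w).filter Nat.Prime, p), (Vc a b (c : ℤ) w / V1 w) ^ 2 ≤
      (∏ p ∈ (Icc 1 w).filter Nat.Prime, p : ℕ) * (Real.exp 8 * 4 ^ a.toNat) := by
  classical
  set S := (Icc 1 w).filter Nat.Prime with hS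
  have hSp : ∀ p ∈ S, p.Prime := fun p hp => (mem_filter.1 hp).2
  have h1 : ∀ c : ℕ, (Vc a b (c : ℤ) w / V1 w) ^ 2 =
      ∏ p ∈ S, ((1 - (rho a b (c : ℤ) p : ℝ) / p) / (1 - 1 / (p : ℝ))) ^ 2 := by
    intro c
    rw [Vc, V1, ← prod_div_distrib, ← prod_pow]
  simp only [h1]
  rw [Run7.h136.BP.crt_prod (fun p n => ((1 - (rho a b (n : ℤ) p : ℝ) / p) / (1 - 1 / (p : ℝ))) ^ 2)
    (fun p n => by
      have := rho_per a b p n
      simp only at this ⊢
      rw [this]) S hSp]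
  have h2 : ∏ p ∈ S, ∑ n ∈ range p, ((1 - (rho a b (n : ℤ) p : ℝ) / p) / (1 - 1 / (p : ℝ))) ^ 2 ≤
      ∏ p ∈ S, ((p : ℝ) * ((1 + 4 / (p : ℝ) ^ 2) * (if (p : ℤ) ∣ a then 4 else 1))) := by
    refine prod_le_prod (fun p _ => sum_nonneg fun n _ => sq_nonneg _) fun p hp => ?_
    by_cases hpa : (p : ℤ) ∣ a
    · rw [if_pos hpa]
      refine (local_triv a b p (hSp p hp)).trans ?_
      have h3 : (0 : ℝ) ≤ 4 / (p : ℝ) ^ 2 := by positivity
      refine mul_le_mul_of_nonneg_left ?_ (Nat.cast_nonneg _)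
      linarith
    · rw [if_neg hpa, mul_one]
      exact local_bound a b p (hSp p hp) hpa
  refine h2.trans ?_
  rw [prod_mul_distrib, prod_mul_distrib]
  push_cast
  refine mul_le_mul_of_nonneg_left ?_ (prod_nonneg fun p _ => Nat.cast_nonneg _)
  have h3 : ∏ p ∈ S, (1 + 4 / (p : ℝ) ^ 2) ≤ Real.exp (∑ p ∈ S, 4 / (p : ℝ) ^ 2) := by
    rw [Real.exp_sum]
    refine prod_le_prod (fun p _ => by positivity) fun p _ => ?_
    have := Real.add_one_le_exp (4 / (p : ℝ) ^ 2)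
    linarith
  have h4 : ∑ p ∈ S, 4 / (p : ℝ) ^ 2 ≤ ∑ p ∈ Ioo 0 (w + 1), 4 / (p : ℝ) ^ 2 := by
    refine sum_le_sum_of_subset_of_nonneg (fun p hp => ?_) fun _ _ _ => by positivity
    rw [hS, mem_filter, mem_Icc] at hp
    rw [mem_Ioo]
    omega
  have h5 := sum_Ioo_inv_sq_le (α := ℝ) 0 (w + 1)
  have h6 : ∑ p ∈ Ioo 0 (w + 1), 4 / (p : ℝ) ^ 2 = 4 * ∑ p ∈ Ioo 0 (w + 1), ((p : ℝ) ^ 2)⁻¹ := by
    rw [mul_sum]
    rfl
  have h7 : ∏ p ∈ S, (1 + 4 / (p : ℝ) ^ 2) ≤ Real.exp 8 := by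
    refine h3.trans (Real.exp_le_exp.2 (h4.trans ?_))
    rw [h6]
    norm_num at h5
    linarith
  have h8 : ∏ p ∈ S, (if (p : ℤ) ∣ a then (4 : ℝ) else 1) ≤ 4 ^ a.toNat := by
    rw [prod_ite]
    rw [prod_const, prod_const_one, mul_one]
    refine pow_le_pow_right₀ (by norm_num) ?_
    have h9 : S.filter (fun p : ℕ => (p : ℤ) ∣ a) ⊆ Icc 1 a.toNat := by
      intro p hp
      rw [mem_filter] at hp
      rw [mem_Icc]
      refine ⟨(hSp p hp.1).one_le, ?_⟩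
      have h10 := Int.le_of_dvd ha hp.2
      omega
    exact (card_le_card h9).trans (by simp)
  exact mul_le_mul h7 h8 (prod_nonneg fun p _ => by split_ifs <;> norm_num) (Real.exp_pos _).le

theorem Vc_anti (a b c : ℤ) {w z : ℕ} (h : w ≤ z) : Vc a b c z ≤ Vc a b c w := by
  have hsub : (Icc 1 w).filter Nat.Prime ⊆ (Icc 1 z).filter Nat.Prime := by
    intro p hp
    rw [mem_filter, mem_Icc] at hp ⊢
    exact ⟨⟨hp.1.1, hp.1.2.trans h⟩, hp.2⟩
  have hf : ∀ p : ℕ, p.Prime → 0 ≤ 1 - (rho a b c p : ℝ) / p ∧ 1 - (rho a b c p : ℝ) / p ≤ 1 := by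
    intro p hp
    have hp0 : (0 : ℝ) < p := by exact_mod_cast hp.pos
    have h1 : (rho a b c p : ℝ) ≤ p := by
      have : rho a b c p ≤ p := by
        unfold rho
        exact (card_filter_le _ _).trans (by rw [card_range])
      exact_mod_cast this
    constructor
    · rw [sub_nonneg, div_le_one hp0]
      exact h1
    · have : 0 ≤ (rho a b c p : ℝ) / p := by positivity
      linarith
  rw [Vc, Vc, ← prod_sdiff hsub]
  have h1 : ∏ p ∈ (Icc 1 z).filter Nat.Prime \ (Icc 1 w).filter Nat.Prime,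
      (1 - (rho a b c p : ℝ) / p) ≤ 1 :=
    prod_le_one (fun p hp => (hf p (mem_filter.1 (mem_sdiff.1 hp).1).2).1)
      fun p hp => (hf p (mem_filter.1 (mem_sdiff.1 hp).1).2).2
  have h2 : 0 ≤ ∏ p ∈ (Icc 1 w).filter Nat.Prime, (1 - (rho a b c p : ℝ) / p) :=
    prod_nonneg fun p hp => (hf p (mem_filter.1 hp).2).1
  nlinarith

theorem sq (a : ℤ) (ha : 0 < a) : Run7.h545.HP.S_SQ a := by
  intro E
  obtain ⟨c₀, hc, hlow⟩ := Shp.V1_lower
  have hlim : Tendsto (fun N : ℕ => Real.log (N : ℝ)) atTop atTop :=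
    Real.tendsto_log_atTop.comp (tendsto_natCast_atTop_atTop (R := ℝ))
  obtain ⟨N₀, hN₀⟩ := eventually_atTop.1 (hlim.eventually_ge_atTop 1000)
  set K : ℝ := 1 + 2 * E / c₀ with hK
  have hK1 : 1 ≤ K := by
    rw [hK]
    have : 0 ≤ 2 * (E : ℝ) / c₀ := by positivity
    linarith
  refine ⟨K ^ 2 * (2 * (Real.exp 8 * 4 ^ a.toNat)), ?_, N₀ + 1, ?_⟩
  · have h1 : (1 : ℝ) ≤ Real.exp 8 := Real.one_le_exp (by norm_num)
    have h2 : (1 : ℝ) ≤ K ^ 2 := one_le_pow₀ hK1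
    have h3 : (1 : ℝ) ≤ 4 ^ a.toNat := one_le_pow₀ (by norm_num)
    have h4 : (1 : ℝ) ≤ Real.exp 8 * 4 ^ a.toNat := one_le_mul_of_one_le_of_one_le h1 h3
    nlinarith
  intro N hN b C Jw hA1 hA2 hw
  have hL := hN₀ N (by omega)
  set L := Real.log (N : ℝ) with hLd
  have hN0 : (0 : ℝ) < N := by exact_mod_cast (by omega : 0 < N)
  set w := 2 ^ 2 ^ Jw with hwd
  have hw2 : 2 ≤ w := by
    rw [hwd]
    calc 2 = 2 ^ 1 := rfl
      _ ≤ 2 ^ 2 ^ Jw := Nat.pow_le_pow_right (by norm_num) Nat.one_le_two_pow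
  set T := ⌊L / 8⌋₊ with hT
  have hT1 : (T : ℝ) ≤ L / 8 := Nat.floor_le (by linarith)
  have hT2 : L / 8 - 1 < T := Nat.sub_one_lt_floor _
  have hT3 : 100 ≤ T := by
    have : (100 : ℝ) < T := by linarith
    exact_mod_cast this.le
  -- the ratio of the Mertens products
  obtain ⟨w0, hw0, hw0T, hw0w, hR⟩ : ∃ w0 : ℕ, 2 ≤ w0 ∧ w0 ≤ T ∧ w0 ≤ w ∧ V1 w0 ≤ K * V1 w := by
    rcases le_or_gt w T with h | h
    · refine ⟨w, hw2, h, le_rfl, ?_⟩
      have := Mtm.V1_pos' w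
      nlinarith
    · refine ⟨T, by omega, le_rfl, h.le, ?_⟩
      have h1 := V1_le T (by omega)
      have h2 := hlow w (by omega)
      have hlT : 0 < Real.log T := Real.log_pos (by exact_mod_cast (by omega : 1 < T))
      have hlw : 0 < Real.log w := Real.log_pos (by exact_mod_cast (by omega : 1 < w))
      have h3 : Real.log w ≤ E * Real.log L := by
        have h4 := Real.log_le_log (by exact_mod_cast (by omega : 0 < w)) hw
        rw [Real.log_pow] at h4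
        exact h4
      have h4 : Real.log L ≤ 2 * Real.log T := by
        have h5 : L ≤ (T : ℝ) ^ 2 := by nlinarith
        have h6 := Real.log_le_log (by linarith) h5
        rw [Real.log_pow] at h6
        exact_mod_cast h6
      have h5 : 1 / Real.log T ≤ K * (c₀ / Real.log w) := by
        rw [div_le_iff₀ hlT]
        have h6 : K * (c₀ / Real.log w) * Real.log T = K * c₀ * Real.log T / Real.log w := by ring
        rw [h6, le_div_iff₀ hlw, one_mul]
        have h7 : K * c₀ = c₀ + 2 * E := by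
          rw [hK]
          field_simp
        rw [h7]
        have h8 : (E : ℝ) * Real.log L ≤ E * (2 * Real.log T) := by gcongr
        have h9 : 0 ≤ c₀ * Real.log T := by positivity
        linarith
      have h6 : K * (c₀ / Real.log w) ≤ K * V1 w := mul_le_mul_of_nonneg_left h2 (by linarith)
      linarith
  -- the pointwise comparison
  have hV0 : 0 < V1 w0 := Mtm.V1_pos' w0
  have hVw : 0 < V1 w := Mtm.V1_pos' w
  have hpt : ∀ c : ℕ, (Vc a b (c : ℤ) w / V1 w) ^ 2 ≤ K ^ 2 * (Vc a b (c : ℤ) w0 / V1 w0) ^ 2 := by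
    intro c
    rw [← mul_pow]
    refine pow_le_pow_left₀ (div_nonneg (Mtm.Vc_bd a b c w).1 hVw.le) ?_ 2
    have h1 := Vc_anti a b (c : ℤ) hw0w
    have h2 : K * (Vc a b (c : ℤ) w0 / V1 w0) = Vc a b (c : ℤ) w0 * (K / V1 w0) := by ring
    rw [h2, div_eq_mul_one_div]
    refine mul_le_mul h1 ?_ (by positivity) (Mtm.Vc_bd a b c w0).1
    rw [div_le_div_iff₀ hVw hV0, one_mul]
    exact hR
  set W := ∏ p ∈ (Icc 1 w0).filter Nat.Prime, p with hW
  have hW0 : 0 < W := prod_pos fun p hp => (mem_filter.1 hp).2.pos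
  have hW4 : W ≤ 4 ^ w0 := by
    have h1 := primorial_le_four_pow w0
    refine le_trans (le_of_eq ?_) h1
    rw [hW, primorial]
    refine prod_congr ?_ fun _ _ => rfl
    ext p
    rw [mem_filter, mem_filter, mem_Icc, mem_range]
    constructor
    · rintro ⟨⟨_, h⟩, hp⟩
      exact ⟨by omega, hp⟩
    · rintro ⟨h, hp⟩
      exact ⟨⟨hp.one_le, by omega⟩, hp⟩
  have hWA : W ≤ C := by
    have h1 : ((4 ^ w0 : ℕ) : ℝ) ≤ C := by
      refine le_trans ?_ hA1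
      push_cast
      have h2 : (4 : ℝ) ^ w0 = Real.exp (w0 * Real.log 4) := by
        rw [mul_comm, Real.exp_mul, Real.exp_log (by norm_num), Real.rpow_natCast]
      rw [h2, Real.rpow_def_of_pos hN0, ← hLd]
      refine Real.exp_le_exp.2 ?_
      have h3 : Real.log 4 ≤ 2 := by
        have : Real.log 4 = 2 * Real.log 2 := by
          rw [show (4 : ℝ) = 2 ^ 2 by norm_num, Real.log_pow]
          norm_num
        have := Real.log_two_lt_d9
        linarith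
      have h4 : (w0 : ℝ) ≤ L / 8 := le_trans (by exact_mod_cast hw0T) hT1
      have h5 : 0 ≤ Real.log 4 := Real.log_nonneg (by norm_num)
      calc (w0 : ℝ) * Real.log 4 ≤ L / 8 * 2 := by gcongr
        _ ≤ L * (1 / 2) := by linarith
    exact_mod_cast (le_trans (by exact_mod_cast hW4 : (W : ℝ) ≤ ((4 ^ w0 : ℕ) : ℝ)) h1)
  have hper : Function.Periodic (fun c : ℕ => (Vc a b (c : ℤ) w0 / V1 w0) ^ 2) W := by
    intro c
    have : Vc a b ((c + W : ℕ) : ℤ) w0 = Vc a b (c : ℤ) w0 := by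
      rw [Vc, Vc]
      refine prod_congr rfl fun p hp => ?_
      obtain ⟨k, hk⟩ := dvd_prod_of_mem (fun p => p) hp
      have h1 : rho a b ((c + k * p : ℕ) : ℤ) p = rho a b (c : ℤ) p := ((rho_per a b p).nat_mul k) c
      have h2 : c + W = c + k * p := by rw [hW, hk, mul_comm]
      rw [h2, h1]
    simp only
    rw [this]
  have h1 := Run7.h136.BP.sum_Icc_le _ (fun c => sq_nonneg _) W C hW0 hWA hper
  have h2 := period_bound a b ha w0
  rw [← hW] at h2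
  have hWr : (0 : ℝ) < W := by exact_mod_cast hW0
  calc ∑ c ∈ Icc 1 C, (Vc a b (c : ℤ) w / V1 w) ^ 2
      ≤ ∑ c ∈ Icc 1 C, K ^ 2 * (Vc a b (c : ℤ) w0 / V1 w0) ^ 2 := sum_le_sum fun c _ => hpt c
    _ = K ^ 2 * ∑ c ∈ Icc 1 C, (Vc a b (c : ℤ) w0 / V1 w0) ^ 2 := by rw [mul_sum]
    _ ≤ K ^ 2 * (2 * C / W * ∑ c ∈ range W, (Vc a b (c : ℤ) w0 / V1 w0) ^ 2) := by gcongr
    _ ≤ K ^ 2 * (2 * C / W * (W * (Real.exp 8 * 4 ^ a.toNat))) := by gcongr
    _ = K ^ 2 * (2 * (Real.exp 8 * 4 ^ a.toNat)) * C := by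
      field_simp

end Run7.h973.HP
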