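import Pool.Agent.Run7.h214.HP.Iface

/-!
Project HP of helper214 (MP_14cf73_nt), piece PAIR.
-/

set_option autoImplicit false

namespace Pool.Agent.Run7.h973.HP

open Finset
open Pool.Agent.Run7.h214.HP

section
variable {ι X L V : Type} [Fintype ι] [DecidableEq ι] [Fintype X] [DecidableEq X] [Fintype L]
  [Fintype V] [DecidableEq V]

omit [DecidableEq X] in
theorem sum_prod (h : ι → X → ℝ) : ∑ x : ι → X, ∏ i, h i (x i) = ∏ i, ∑ a, h i a := by
  rw [prod_univ_sum, Fintype.piFinset_univ]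

omit [DecidableEq X] in
theorem sum_W {P : ι → X → ℝ} (hP : ∀ i, ∑ a, P i a = 1) : ∑ x : ι → X, ∏ i, P i (x i) = 1 := by
  rw [sum_prod, prod_congr rfl fun i _ => hP i, prod_const_one]

omit [DecidableEq X] in
theorem sum_two (P : ι → X → ℝ) (j k : ι) (u v : X → ℝ) :
    ∑ x : ι → X, (∏ i, P i (x i)) * (u (x j) * v (x k)) =
      ∏ i, ∑ a, P i a * ((if i = j then u a else 1) * (if i = k then v a else 1)) := by
  rw [← sum_prod]
  refine sum_congr rfl fun x _ => ?_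
  rw [prod_mul_distrib, prod_mul_distrib, prod_ite_eq', prod_ite_eq', if_pos (mem_univ _), if_pos (mem_univ _)]

omit [DecidableEq X] in
theorem var_sum {P : ι → X → ℝ} (hP : ∀ i, ∑ a, P i a = 1) {g : ι → X → ℝ}
    (hg : ∀ i, ∑ a, P i a * g i a = 0) :
    ∑ x : ι → X, (∏ i, P i (x i)) * (∑ i, g i (x i)) ^ 2 = ∑ i, ∑ a, P i a * g i a ^ 2 := by
  have h1 : ∀ x : ι → X, (∏ i, P i (x i)) * (∑ i, g i (x i)) ^ 2 =
      ∑ j, ∑ k, (∏ i, P i (x i)) * (g j (x j) * g k (x k)) := by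
    intro x
    rw [sq, sum_mul_sum, mul_sum]
    exact sum_congr rfl fun j _ => by rw [mul_sum]
  rw [sum_congr rfl fun x _ => h1 x, sum_comm]
  refine sum_congr rfl fun j _ => ?_
  rw [sum_comm, sum_eq_single j]
  · rw [sum_two, prod_eq_single j]
    · refine sum_congr rfl fun a _ => ?_
      rw [if_pos rfl, sq]
    · intro i _ hij
      exact (sum_congr rfl fun a _ => by rw [if_neg hij, mul_one, mul_one]).trans (hP i)
    · intro h
      exact absurd (mem_univ _) h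
  · intro k _ hkj
    rw [sum_two]
    apply prod_eq_zero (mem_univ j)
    rw [← hg j]
    refine sum_congr rfl fun a _ => ?_
    rw [if_pos rfl, if_neg (fun h => hkj h.symm), mul_one]
  · intro h
    exact absurd (mem_univ _) h

/-- the variance identity in one coordinate -/
theorem pair_sum {α : Type*} (T : Finset α) (W u : α → ℝ) :
    ∑ x ∈ T, ∑ y ∈ T, W x * W y * (u x - u y) ^ 2 =
      2 * (∑ x ∈ T, W x) * (∑ x ∈ T, W x * u x ^ 2) - 2 * (∑ x ∈ T, W x * u x) ^ 2 := by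
  have h1 : ∀ x y, W x * W y * (u x - u y) ^ 2 =
      W x * u x ^ 2 * W y + W x * (W y * u y ^ 2) - 2 * ((W x * u x) * (W y * u y)) := fun x y => by ring
  simp_rw [h1, sum_sub_distrib, sum_add_distrib, ← mul_sum, ← sum_mul]
  ring

end

/-- **PAIR** -/
theorem t_PAIR : S_PAIR := by
  intro C η hC hη
  obtain ⟨θ, hθ⟩ : ∃ θ, θ = η / 16 := ⟨_, rfl⟩
  have hθ0 : 0 < θ := by rw [hθ]; positivity
  obtain ⟨n0, hn0⟩ : ∃ n0 : ℕ, 34 * C ^ 2 / θ ^ 2 + 8 * (8 * C + η) / η ^ 2 + 1 ≤ n0 := exists_nat_ge _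
  refine ⟨n0, ?_⟩
  intro ι X L V _ _ _ _ _ _ _ P f cl hn hP hP1 hf hV
  obtain ⟨n, hnd⟩ : ∃ n : ℝ, n = Fintype.card ι := ⟨_, rfl⟩
  rw [← hnd] at hV ⊢
  have hn1 : 34 * C ^ 2 / θ ^ 2 + 8 * (8 * C + η) / η ^ 2 + 1 ≤ n := by
    refine hn0.trans ?_
    rw [hnd]
    exact_mod_cast hn
  have hn2 : 34 * C ^ 2 / θ ^ 2 ≤ n := by
    have : 0 ≤ 8 * (8 * C + η) / η ^ 2 := by positivity
    linarith
  have hn3 : 8 * (8 * C + η) / η ^ 2 ≤ n := by
    have : 0 ≤ 34 * C ^ 2 / θ ^ 2 := by positivity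
    linarith
  have hnpos : 0 < n := by
    have : 0 ≤ 34 * C ^ 2 / θ ^ 2 := by positivity
    have : 0 ≤ 8 * (8 * C + η) / η ^ 2 := by positivity
    linarith
  have hP0 : ∀ i a, 0 ≤ P i a := by
    intro i a
    rcases hP i a with h | h
    · rw [h]
    · exact (Real.exp_pos _).le.trans h
  have hPle : ∀ i a, P i a ≤ 1 := by
    intro i a
    rw [← hP1 i]
    exact single_le_sum (f := fun a => P i a) (fun a _ => hP0 i a) (mem_univ a)
  have hlog : ∀ i a, 0 ≤ -Real.log (P i a) ∧ -Real.log (P i a) ≤ C := by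
    intro i a
    rcases hP i a with h | h
    · rw [h, Real.log_zero, neg_zero]
      exact ⟨le_refl _, hC.le⟩
    · refine ⟨?_, ?_⟩
      · rw [neg_nonneg]
        exact Real.log_nonpos (hP0 i a) (hPle i a)
      · have h2 := Real.log_le_log (Real.exp_pos _) h
        rw [Real.log_exp] at h2
        linarith
  -- the entropies
  obtain ⟨Hh, hHh⟩ : ∃ Hh : ι → ℝ, Hh = fun i => ∑ a, Real.negMulLog (P i a) := ⟨_, rfl⟩
  have hHx : ∀ i, Hh i = ∑ a, P i a * (-Real.log (P i a)) := by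
    intro i
    rw [hHh]
    refine sum_congr rfl fun a _ => ?_
    unfold Real.negMulLog
    ring
  have havg : ∀ (i : ι) (u : X → ℝ) (B : ℝ), (∀ a, u a ≤ B) → ∑ a, P i a * u a ≤ B := by
    intro i u B hu
    calc ∑ a, P i a * u a ≤ ∑ a, P i a * B := sum_le_sum fun a _ => mul_le_mul_of_nonneg_left (hu a) (hP0 i a)
      _ = B := by rw [← sum_mul, hP1, one_mul]
  have havg0 : ∀ (i : ι) (u : X → ℝ), (∀ a, 0 ≤ u a) → 0 ≤ ∑ a, P i a * u a := fun i u hu =>
    sum_nonneg fun a _ => mul_nonneg (hP0 i a) (hu a)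
  have hH0 : ∀ i, 0 ≤ Hh i ∧ Hh i ≤ C := fun i => by
    rw [hHx]
    exact ⟨havg0 i _ fun a => (hlog i a).1, havg i _ _ fun a => (hlog i a).2⟩
  have hVsum : ∑ i, ∑ a, Real.negMulLog (P i a) = ∑ i, Hh i := by rw [hHh]
  rw [hVsum] at hV
  obtain ⟨g1, hg1⟩ : ∃ g1 : ι → X → ℝ, g1 = fun i a => -Real.log (P i a) - Hh i := ⟨_, rfl⟩
  have hg1x : ∀ i a, g1 i a = -Real.log (P i a) - Hh i := fun i a => by rw [hg1]
  have hg1c : ∀ i, ∑ a, P i a * g1 i a = 0 := by
    intro i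
    simp_rw [hg1x, mul_sub]
    rw [sum_sub_distrib, ← sum_mul, hP1, one_mul, ← hHx, sub_self]
  have hg1b : ∀ i a, g1 i a ^ 2 ≤ C ^ 2 := by
    intro i a
    rw [hg1x]
    apply sq_le_sq'
    · linarith [(hlog i a).1, (hH0 i).2]
    · linarith [(hlog i a).2, (hH0 i).1]
  -- the variances
  obtain ⟨fb, hfb⟩ : ∃ fb : ι → L → ℝ, fb = fun i l => ∑ a, P i a * f i l a := ⟨_, rfl⟩
  have hfbx : ∀ i l, fb i l = ∑ a, P i a * f i l a := fun i l => by rw [hfb]
  obtain ⟨z, hz⟩ : ∃ z : ι → X → ℝ, z = fun i a => ∑ l, (f i l a - fb i l) ^ 2 := ⟨_, rfl⟩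
  have hzx : ∀ i a, z i a = ∑ l, (f i l a - fb i l) ^ 2 := fun i a => by rw [hz]
  obtain ⟨Z, hZ⟩ : ∃ Z : ι → ℝ, Z = fun i => ∑ a, P i a * z i a := ⟨_, rfl⟩
  have hZx : ∀ i, Z i = ∑ a, P i a * z i a := fun i => by rw [hZ]
  have hfbsq : ∀ i l, fb i l ^ 2 ≤ ∑ a, P i a * f i l a ^ 2 := by
    intro i l
    have h1 := pair_sum (univ : Finset X) (fun a => P i a) (fun a => f i l a)
    have h2 : 0 ≤ ∑ x : X, ∑ y : X, P i x * P i y * (f i l x - f i l y) ^ 2 :=
      sum_nonneg fun x _ => sum_nonneg fun y _ => mul_nonneg (mul_nonneg (hP0 i x) (hP0 i y)) (sq_nonneg _)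
    rw [h1, hP1 i, ← hfbx] at h2
    linarith
  have hzb : ∀ i a, 0 ≤ z i a ∧ z i a ≤ 4 * C := by
    intro i a
    rw [hzx]
    refine ⟨sum_nonneg fun l _ => sq_nonneg _, ?_⟩
    have h1 : ∑ l, fb i l ^ 2 ≤ C := by
      calc ∑ l, fb i l ^ 2 ≤ ∑ l, ∑ a, P i a * f i l a ^ 2 := sum_le_sum fun l _ => hfbsq i l
        _ = ∑ a, P i a * ∑ l, f i l a ^ 2 := by
          rw [sum_comm]
          exact sum_congr rfl fun a _ => by rw [mul_sum]
        _ ≤ C := havg i _ _ fun a => hf i a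
    calc ∑ l, (f i l a - fb i l) ^ 2 ≤ ∑ l, (2 * f i l a ^ 2 + 2 * fb i l ^ 2) := by
          refine sum_le_sum fun l _ => ?_
          nlinarith [sq_nonneg (f i l a + fb i l)]
      _ = 2 * (∑ l, f i l a ^ 2) + 2 * ∑ l, fb i l ^ 2 := by rw [sum_add_distrib, ← mul_sum, ← mul_sum]
      _ ≤ 4 * C := by linarith [hf i a]
  have hZ0 : ∀ i, 0 ≤ Z i ∧ Z i ≤ 4 * C := fun i => by
    rw [hZx]
    exact ⟨havg0 i _ fun a => (hzb i a).1, havg i _ _ fun a => (hzb i a).2⟩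
  obtain ⟨g2, hg2⟩ : ∃ g2 : ι → X → ℝ, g2 = fun i a => z i a - Z i := ⟨_, rfl⟩
  have hg2x : ∀ i a, g2 i a = z i a - Z i := fun i a => by rw [hg2]
  have hg2c : ∀ i, ∑ a, P i a * g2 i a = 0 := by
    intro i
    simp_rw [hg2x, mul_sub]
    rw [sum_sub_distrib, ← sum_mul, hP1, one_mul, ← hZx, sub_self]
  have hg2b : ∀ i a, g2 i a ^ 2 ≤ (4 * C) ^ 2 := by
    intro i a
    rw [hg2x]
    apply sq_le_sq'
    · linarith [(hzb i a).1, (hZ0 i).2]
    · linarith [(hzb i a).2, (hZ0 i).1]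
  -- the weights
  obtain ⟨W, hW⟩ : ∃ W : (ι → X) → ℝ, W = fun x => ∏ i, P i (x i) := ⟨_, rfl⟩
  have hWx : ∀ x, W x = ∏ i, P i (x i) := fun x => by rw [hW]
  have hW0 : ∀ x, 0 ≤ W x := fun x => by
    rw [hWx]
    exact prod_nonneg fun i _ => hP0 i _
  have hWsum : ∑ x, W x = 1 := by
    rw [hW]
    exact sum_W hP1
  have hv1 : ∑ x, W x * (∑ i, g1 i (x i)) ^ 2 ≤ n * C ^ 2 := by
    rw [hW, var_sum hP1 hg1c, hnd]
    calc ∑ i, ∑ a, P i a * g1 i a ^ 2 ≤ ∑ _i : ι, C ^ 2 := sum_le_sum fun i _ => havg i _ _ fun a => hg1b i a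
      _ = _ := by rw [sum_const, card_univ, nsmul_eq_mul]
  have hv2 : ∑ x, W x * (∑ i, g2 i (x i)) ^ 2 ≤ n * (4 * C) ^ 2 := by
    rw [hW, var_sum hP1 hg2c, hnd]
    calc ∑ i, ∑ a, P i a * g2 i a ^ 2 ≤ ∑ _i : ι, (4 * C) ^ 2 := sum_le_sum fun i _ => havg i _ _ fun a => hg2b i a
      _ = _ := by rw [sum_const, card_univ, nsmul_eq_mul]
  have hθn : 0 < θ * n := by positivity
  -- the typical points
  obtain ⟨T, hT⟩ : ∃ T : Finset (ι → X), ∀ x, x ∈ T ↔ (W x ≠ 0 ∧ |∑ i, g1 i (x i)| ≤ θ * n ∧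
      |∑ i, g2 i (x i)| ≤ θ * n) := by
    classical
    exact ⟨univ.filter fun x => W x ≠ 0 ∧ |∑ i, g1 i (x i)| ≤ θ * n ∧ |∑ i, g2 i (x i)| ≤ θ * n,
      fun x => by rw [mem_filter]; exact ⟨fun h => h.2, fun h => ⟨mem_univ _, h⟩⟩⟩
  have hTmass : 1 / 2 ≤ ∑ x ∈ T, W x := by
    classical
    have h1 : ∀ x, W x ≤ (if x ∈ T then W x else 0) +
        (W x * (∑ i, g1 i (x i)) ^ 2 + W x * (∑ i, g2 i (x i)) ^ 2) / (θ * n) ^ 2 := by
      intro x
      have h2 : 0 ≤ (W x * (∑ i, g1 i (x i)) ^ 2 + W x * (∑ i, g2 i (x i)) ^ 2) / (θ * n) ^ 2 := by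
        have := hW0 x
        positivity
      by_cases hx : x ∈ T
      · rw [if_pos hx]
        linarith
      · rw [if_neg hx, zero_add, le_div_iff₀ (by positivity)]
        by_cases hW00 : W x = 0
        · rw [hW00]
          simp
        · have h3 : (θ * n) ^ 2 ≤ (∑ i, g1 i (x i)) ^ 2 + (∑ i, g2 i (x i)) ^ 2 := by
            by_contra hcon
            rw [not_le] at hcon
            apply hx
            rw [hT]
            refine ⟨hW00, ?_, ?_⟩
            · apply abs_le_of_sq_le_sq _ hθn.le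
              nlinarith [sq_nonneg (∑ i, g2 i (x i))]
            · apply abs_le_of_sq_le_sq _ hθn.le
              nlinarith [sq_nonneg (∑ i, g1 i (x i))]
          have h4 := mul_le_mul_of_nonneg_left h3 (hW0 x)
          linarith
    have h2 := sum_le_sum fun x (_ : x ∈ (univ : Finset (ι → X))) => h1 x
    rw [hWsum, sum_add_distrib, ← sum_div, sum_add_distrib, sum_ite_mem, univ_inter] at h2
    have h3 : (∑ x, W x * (∑ i, g1 i (x i)) ^ 2 + ∑ x, W x * (∑ i, g2 i (x i)) ^ 2) / (θ * n) ^ 2 ≤ 1 / 2 := by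
      rw [div_le_iff₀ (by positivity)]
      have h4 : 34 * C ^ 2 ≤ n * θ ^ 2 := by
        rwa [div_le_iff₀ (by positivity)] at hn2
      have h5 : n * (34 * C ^ 2) ≤ n * (n * θ ^ 2) := mul_le_mul_of_nonneg_left h4 hnpos.le
      nlinarith
    linarith
  have hTW : ∀ x ∈ T, W x ≤ Real.exp (-(∑ i, Hh i) + θ * n) := by
    intro x hx
    rw [hT] at hx
    obtain ⟨hx1, hx2, -⟩ := hx
    have h1 : ∀ i ∈ (univ : Finset ι), P i (x i) ≠ 0 := by
      rw [hWx, prod_ne_zero_iff] at hx1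
      exact hx1
    rw [hWx, ← Real.exp_log (prod_pos fun i hi => lt_of_le_of_ne (hP0 i _) (h1 i hi).symm),
      Real.log_prod h1]
    apply Real.exp_le_exp.2
    have h2 := (abs_le.1 hx2).1
    have h3 : ∑ i, g1 i (x i) = -(∑ i, Real.log (P i (x i))) - ∑ i, Hh i := by
      simp_rw [hg1x]
      rw [sum_sub_distrib, sum_neg_distrib]
    rw [h3] at h2
    linarith
  -- a heavy class
  obtain ⟨v, hv⟩ : ∃ v : V, 1 / (2 * (Fintype.card V : ℝ)) ≤ ∑ x ∈ T with cl x = v, W x := by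
    by_contra hcon
    push Not at hcon
    have h1 : ∑ v : V, ∑ x ∈ T with cl x = v, W x = ∑ x ∈ T, W x := by
      rw [sum_fiberwise]
    have hTne : T.Nonempty := by
      rw [nonempty_iff_ne_empty]
      intro h
      rw [h, sum_empty] at hTmass
      linarith
    obtain ⟨x, _⟩ := hTne
    have hVne : (univ : Finset V).Nonempty := ⟨cl x, mem_univ _⟩
    have hVpos : (0 : ℝ) < Fintype.card V := by
      have : 0 < Fintype.card V := Fintype.card_pos_iff.2 ⟨cl x⟩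
      exact_mod_cast this
    have h2 : ∑ v : V, ∑ x ∈ T with cl x = v, W x < ∑ _v : V, 1 / (2 * (Fintype.card V : ℝ)) :=
      sum_lt_sum_of_nonempty hVne fun v _ => hcon v
    rw [h1, sum_const, card_univ, nsmul_eq_mul] at h2
    have h3 : (Fintype.card V : ℝ) * (1 / (2 * (Fintype.card V : ℝ))) = 1 / 2 := by field_simp
    rw [h3] at h2
    linarith
  obtain ⟨T', hT'⟩ : ∃ T' : Finset (ι → X), T' = {x ∈ T | cl x = v} := ⟨_, rfl⟩
  rw [← hT'] at hv
  obtain ⟨M, hM⟩ : ∃ M, M = ∑ x ∈ T', W x := ⟨_, rfl⟩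
  rw [← hM] at hv
  have hT'T : ∀ x ∈ T', x ∈ T ∧ cl x = v := fun x hx => by
    rw [hT', mem_filter] at hx
    exact hx
  have hVpos : (0 : ℝ) < Fintype.card V := by
    have : 0 < Fintype.card V := Fintype.card_pos_iff.2 ⟨v⟩
    exact_mod_cast this
  have hM0 : 0 < M := lt_of_lt_of_le (by positivity) hv
  -- the distances
  obtain ⟨E, hE⟩ : ∃ E, E = ∑ i, ∑ l, ∑ a, ∑ b, P i a * P i b * (f i l a - f i l b) ^ 2 := ⟨_, rfl⟩
  rw [← hE]
  have hEZ : E = 2 * ∑ i, Z i := by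
    rw [hE, mul_sum]
    refine sum_congr rfl fun i _ => ?_
    have h1 : ∀ l, ∑ a, ∑ b, P i a * P i b * (f i l a - f i l b) ^ 2 =
        2 * ∑ a, P i a * (f i l a - fb i l) ^ 2 := by
      intro l
      have h2 := pair_sum (univ : Finset X) (fun a => P i a) (fun a => f i l a - fb i l)
      have h3 : ∀ a b, f i l a - fb i l - (f i l b - fb i l) = f i l a - f i l b := fun a b => by ring
      simp_rw [h3] at h2
      rw [h2, hP1 i]
      have h4 : ∑ a, P i a * (f i l a - fb i l) = 0 := by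
        simp_rw [mul_sub]
        rw [sum_sub_distrib, ← sum_mul, hP1, one_mul, ← hfbx, sub_self]
      rw [h4]
      ring
    rw [sum_congr rfl fun l _ => h1 l, ← mul_sum, hZx, sum_comm]
    congr 1
    refine sum_congr rfl fun a _ => ?_
    rw [← mul_sum, hzx]
  have hEn : E ≤ 8 * C * n := by
    rw [hEZ, hnd]
    have h1 : ∑ i, Z i ≤ ∑ _i : ι, 4 * C := sum_le_sum fun i _ => (hZ0 i).2
    rw [sum_const, card_univ, nsmul_eq_mul] at h1
    linarith
  have hE0 : 0 ≤ E := by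
    rw [hEZ]
    exact mul_nonneg (by norm_num) (sum_nonneg fun i _ => (hZ0 i).1)
  obtain ⟨D, hD⟩ : ∃ D : (ι → X) → (ι → X) → ℝ, D = fun x y => ∑ i, ∑ l, (f i l (x i) - f i l (y i)) ^ 2 := ⟨_, rfl⟩
  have hDx : ∀ x y, D x y = ∑ i, ∑ l, (f i l (x i) - f i l (y i)) ^ 2 := fun x y => by rw [hD]
  have hsumD : ∑ x ∈ T', ∑ y ∈ T', W x * W y * D x y ≤ M ^ 2 * (E + 2 * (θ * n)) := by
    have h1 : ∑ x ∈ T', ∑ y ∈ T', W x * W y * D x y =
        ∑ i, ∑ l, ∑ x ∈ T', ∑ y ∈ T', W x * W y * (f i l (x i) - f i l (y i)) ^ 2 := by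
      calc ∑ x ∈ T', ∑ y ∈ T', W x * W y * D x y =
          ∑ x ∈ T', ∑ y ∈ T', ∑ i, ∑ l, W x * W y * (f i l (x i) - f i l (y i)) ^ 2 := by
            simp_rw [hDx, mul_sum]
        _ = ∑ x ∈ T', ∑ i, ∑ y ∈ T', ∑ l, W x * W y * (f i l (x i) - f i l (y i)) ^ 2 :=
            sum_congr rfl fun x _ => sum_comm
        _ = ∑ x ∈ T', ∑ i, ∑ l, ∑ y ∈ T', W x * W y * (f i l (x i) - f i l (y i)) ^ 2 :=
            sum_congr rfl fun x _ => sum_congr rfl fun i _ => sum_comm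
        _ = ∑ i, ∑ x ∈ T', ∑ l, ∑ y ∈ T', W x * W y * (f i l (x i) - f i l (y i)) ^ 2 := sum_comm
        _ = _ := sum_congr rfl fun i _ => sum_comm
    have h2 : ∀ i l, ∑ x ∈ T', ∑ y ∈ T', W x * W y * (f i l (x i) - f i l (y i)) ^ 2 ≤
        2 * M * ∑ x ∈ T', W x * (f i l (x i) - fb i l) ^ 2 := by
      intro i l
      have h3 := pair_sum T' W (fun x => f i l (x i) - fb i l)
      have h4 : ∀ x y : ι → X, f i l (x i) - fb i l - (f i l (y i) - fb i l) = f i l (x i) - f i l (y i) :=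
        fun x y => by ring
      simp_rw [h4] at h3
      rw [h3, ← hM]
      nlinarith [sq_nonneg (∑ x ∈ T', W x * (f i l (x i) - fb i l))]
    have h5 : ∀ x ∈ T', ∑ i, z i (x i) ≤ (∑ i, Z i) + θ * n := by
      intro x hx
      have h6 := ((hT x).1 (hT'T x hx).1).2.2
      have h7 : ∑ i, g2 i (x i) = (∑ i, z i (x i)) - ∑ i, Z i := by
        simp_rw [hg2x]
        rw [sum_sub_distrib]
      rw [h7] at h6
      linarith [(abs_le.1 h6).2]
    rw [h1]
    calc ∑ i, ∑ l, ∑ x ∈ T', ∑ y ∈ T', W x * W y * (f i l (x i) - f i l (y i)) ^ 2 ≤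
        ∑ i, ∑ l, 2 * M * ∑ x ∈ T', W x * (f i l (x i) - fb i l) ^ 2 :=
          sum_le_sum fun i _ => sum_le_sum fun l _ => h2 i l
      _ = 2 * M * ∑ i, ∑ l, ∑ x ∈ T', W x * (f i l (x i) - fb i l) ^ 2 := by
          rw [mul_sum]
          exact sum_congr rfl fun i _ => by rw [mul_sum]
      _ = 2 * M * ∑ i, ∑ x ∈ T', ∑ l, W x * (f i l (x i) - fb i l) ^ 2 := by
          congr 1
          exact sum_congr rfl fun i _ => sum_comm
      _ = 2 * M * ∑ x ∈ T', ∑ i, ∑ l, W x * (f i l (x i) - fb i l) ^ 2 := by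
          congr 1
          exact sum_comm
      _ = 2 * M * ∑ x ∈ T', W x * ∑ i, z i (x i) := by
          congr 1
          refine sum_congr rfl fun x _ => ?_
          rw [mul_sum]
          exact sum_congr rfl fun i _ => by rw [hzx, mul_sum]
      _ ≤ 2 * M * ∑ x ∈ T', W x * ((∑ i, Z i) + θ * n) := by
          apply mul_le_mul_of_nonneg_left _ (by positivity)
          exact sum_le_sum fun x hx => mul_le_mul_of_nonneg_left (h5 x hx) (hW0 x)
      _ = M ^ 2 * (E + 2 * (θ * n)) := by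
          rw [← sum_mul, ← hM, hEZ]
          ring
  by_contra hcon
  push Not at hcon
  have hcon' : ∀ x ∈ T', ∀ y ∈ T', x ≠ y → E + η * n < D x y := by
    intro x hx y hy hxy
    rw [hDx]
    refine hcon x y hxy ((hT'T x hx).2.trans (hT'T y hy).2.symm) fun i => ?_
    have hx1 := ((hT x).1 (hT'T x hx).1).1
    have hy1 := ((hT y).1 (hT'T y hy).1).1
    rw [hWx, prod_ne_zero_iff] at hx1 hy1
    exact ⟨lt_of_le_of_ne (hP0 i _) (hx1 i (mem_univ i)).symm, lt_of_le_of_ne (hP0 i _) (hy1 i (mem_univ i)).symm⟩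
  obtain ⟨D0, hD0⟩ : ∃ D0, D0 = E + η * n := ⟨_, rfl⟩
  have hD00 : 0 < D0 := by
    rw [hD0]
    positivity
  have hlow : D0 * M ^ 2 - D0 * ∑ x ∈ T', W x ^ 2 ≤ ∑ x ∈ T', ∑ y ∈ T', W x * W y * D x y := by
    classical
    have h1 : ∀ x ∈ T', ∀ y ∈ T', W x * W y * D0 - (if y = x then W x * W x * D0 else 0) ≤ W x * W y * D x y := by
      intro x hx y hy
      by_cases hxy : y = x
      · rw [if_pos hxy, hxy, sub_self]
        refine mul_nonneg (mul_nonneg (hW0 x) (hW0 x)) ?_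
        rw [hDx]
        exact sum_nonneg fun i _ => sum_nonneg fun l _ => sq_nonneg _
      · rw [if_neg hxy, sub_zero]
        apply mul_le_mul_of_nonneg_left _ (mul_nonneg (hW0 x) (hW0 y))
        rw [hD0]
        exact (hcon' x hx y hy (fun h => hxy h.symm)).le
    refine le_trans (le_of_eq ?_) (sum_le_sum fun x hx => sum_le_sum fun y hy => h1 x hx y hy)
    have h2 : ∀ x ∈ T', ∑ y ∈ T', (W x * W y * D0 - (if y = x then W x * W x * D0 else 0)) =
        W x * M * D0 - W x ^ 2 * D0 := by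
      intro x hx
      rw [sum_sub_distrib, sum_ite_eq' T' x (fun _ => W x * W x * D0), if_pos hx, ← sum_mul, ← mul_sum, ← hM, sq]
    rw [sum_congr rfl h2, sum_sub_distrib, ← sum_mul, ← sum_mul, ← sum_mul, ← hM]
    ring
  -- the diagonal
  obtain ⟨e, he⟩ : ∃ e, e = Real.exp (-(∑ i, Hh i) + θ * n) := ⟨_, rfl⟩
  obtain ⟨δ, hδ⟩ : ∃ δ, δ = 2 * Real.exp (-(η * n) + θ * n) := ⟨_, rfl⟩
  have he0 : 0 < e := by rw [he]; exact Real.exp_pos _
  have hcardV : (Fintype.card V : ℝ) ≤ Real.exp ((∑ i, Hh i) - η * n) := by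
    rw [← Real.exp_log hVpos]
    exact Real.exp_le_exp.2 hV
  have hM1 : 1 ≤ 2 * Real.exp ((∑ i, Hh i) - η * n) * M := by
    have h1 : 1 ≤ 2 * (Fintype.card V : ℝ) * M := by
      rw [div_le_iff₀ (by positivity)] at hv
      linarith
    refine h1.trans ?_
    apply mul_le_mul_of_nonneg_right _ hM0.le
    linarith
  have heM : e ≤ δ * M := by
    have h1 := mul_le_mul_of_nonneg_left hM1 he0.le
    have h2 : e * (2 * Real.exp ((∑ i, Hh i) - η * n) * M) = δ * M := by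
      have h3 : e * Real.exp ((∑ i, Hh i) - η * n) = Real.exp (-(η * n) + θ * n) := by
        rw [he, ← Real.exp_add]
        congr 1
        ring
      rw [hδ, ← h3]
      ring
    rw [h2, mul_one] at h1
    exact h1
  have hdiag : ∑ x ∈ T', W x ^ 2 ≤ δ * M ^ 2 := by
    calc ∑ x ∈ T', W x ^ 2 ≤ ∑ x ∈ T', e * W x := by
          refine sum_le_sum fun x hx => ?_
          rw [sq]
          apply mul_le_mul_of_nonneg_right _ (hW0 x)
          rw [he]
          exact hTW x (hT'T x hx).1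
      _ = e * M := by rw [← mul_sum, ← hM]
      _ ≤ (δ * M) * M := mul_le_mul_of_nonneg_right heM hM0.le
      _ = _ := by ring
  have hδ0 : 0 < δ := by rw [hδ]; positivity
  have hδ1 : δ * (8 * C + η) ≤ η / 2 := by
    have h1 : Real.exp (-(η * n) + θ * n) ≤ 2 / (η * n) := by
      have h2 : η * n / 2 ≤ Real.exp (η * n / 2) := by
        linarith [Real.add_one_le_exp (η * n / 2)]
      have h3 : Real.exp (-(η * n) + θ * n) ≤ Real.exp (-(η * n / 2)) := by
        apply Real.exp_le_exp.2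
        rw [hθ]
        have : 0 < η * n := by positivity
        linarith
      refine h3.trans ?_
      rw [Real.exp_neg]
      have h4 : 2 / (η * n) = (η * n / 2)⁻¹ := by rw [inv_div]
      rw [h4]
      exact inv_anti₀ (by positivity) h2
    rw [hδ]
    have h5 : 8 * (8 * C + η) ≤ n * η ^ 2 := by
      rwa [div_le_iff₀ (by positivity)] at hn3
    calc 2 * Real.exp (-(η * n) + θ * n) * (8 * C + η) ≤ 2 * (2 / (η * n)) * (8 * C + η) := by
          apply mul_le_mul_of_nonneg_right _ (by positivity)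
          linarith
      _ = 4 * (8 * C + η) / (η * n) := by ring
      _ ≤ η / 2 := by
          rw [div_le_iff₀ (by positivity)]
          nlinarith
  have hδD : δ * D0 ≤ η / 2 * n := by
    have h1 : D0 ≤ (8 * C + η) * n := by
      rw [hD0]
      linarith
    calc δ * D0 ≤ δ * ((8 * C + η) * n) := mul_le_mul_of_nonneg_left h1 hδ0.le
      _ = δ * (8 * C + η) * n := by ring
      _ ≤ _ := mul_le_mul_of_nonneg_right hδ1 hnpos.le
  have hfinal : D0 - δ * D0 ≤ E + 2 * (θ * n) := by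
    have h1 : D0 * ∑ x ∈ T', W x ^ 2 ≤ D0 * (δ * M ^ 2) := mul_le_mul_of_nonneg_left hdiag hD00.le
    have h2 : (D0 - δ * D0) * M ^ 2 ≤ (E + 2 * (θ * n)) * M ^ 2 := by nlinarith
    exact le_of_mul_le_mul_right h2 (by positivity)
  have h9 : 0 < η * n := by positivity
  rw [hD0] at hfinal hδD
  rw [hθ] at hfinal
  nlinarith

end Pool.Agent.Run7.h973.HP
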